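import Pool.Agent.H568R3.Large

/-!
# Rigid placements of `(d,d)`-tight graphs in `ℓ_q^d` for all `q` outside a finite set of integers
-/

set_option autoImplicit false

namespace Pool.Agent.Results.MP_3a76b1_co.NonIntegralExponents

open scoped ENNReal
open Pool.Agent.H568R3

/-- For every `d ≥ 1` and every finite simple graph `G` whose edge set is the disjoint union of the
edge sets of `d` spanning trees there is a finite set `B` of integers such that `G` has an
infinitesimally rigid placement in `ℓ_q^d` for every real number `q > 1` which is not in `B`. -/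
theorem result (V : Type) [Finite V] (d : ℕ) (hd : 1 ≤ d) (G : SimpleGraph V)
    (T : Fin d → SimpleGraph V) (hT : ∀ i, (T i).IsTree)
    (hdisj : ∀ i j, i ≠ j → Disjoint (T i) (T j)) (hG : G = ⨆ i, T i) :
    ∃ B : Finset ℤ, ∀ q : ℝ, 1 < q → (∀ m ∈ B, (m : ℝ) ≠ q) →
      ∃ p : V → Fin d → ℝ, Rigid (ENNReal.ofReal q) G p := by
  have hle : ∀ i, T i ≤ G := fun i => hG ▸ le_iSup T i
  have hne : Nonempty V := (hT ⟨0, hd⟩).connected.nonempty
  obtain ⟨p0, N, hN⟩ := exists_rigid_large hd G T hle (fun i => (hT i).connected) hdisj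
  refine ⟨Finset.Icc 0 ⌈N⌉, ?_⟩
  intro q hq hqB
  by_cases hqi : ∀ m : ℤ, (m : ℝ) ≠ q
  · obtain ⟨p, hp⟩ := exists_rigid (J := Unit) hd hq hqi (fun _ => G) (fun _ => T)
      (fun _ => hle) (fun _ i => (hT i).connected) (fun _ => hdisj)
    exact ⟨p, hp ()⟩
  · push Not at hqi
    obtain ⟨m, hm⟩ := hqi
    refine ⟨p0, hN q ?_⟩
    by_contra hlt
    push Not at hlt
    apply hqB m _ hm
    rw [Finset.mem_Icc]
    constructor
    · have h1 : (0 : ℝ) ≤ m := by linarith
      exact_mod_cast h1
    · have h1 : (m : ℝ) ≤ ⌈N⌉ := by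
        have := Int.le_ceil N
        linarith
      exact_mod_cast h1

end Pool.Agent.Results.MP_3a76b1_co.NonIntegralExponents
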